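import Pool.Agent.R877.RN.Stm

/-! Piece RN-EXL (helper801): the exponential normalises a space of matrices normalised by `N`. -/

set_option autoImplicit false

namespace R877.RN
open Matrix

theorem exl_ex {n : ℕ} (N : Mat n) (hN : N ^ n = 0) (t : ℝ) :
    ex N t = IsNilpotent.exp (t • N) := by
  have ha : (t • N) ^ n = 0 := by rw [smul_pow, hN, smul_zero]
  rw [IsNilpotent.exp_eq_sum ha]
  unfold ex
  refine Finset.sum_congr rfl fun m _ => ?_
  rw [smul_pow]
  ext i j
  simp only [Matrix.smul_apply, smul_eq_mul, Rat.smul_def, Rat.cast_inv, Rat.cast_natCast]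
  rw [div_eq_inv_mul, mul_assoc]

theorem p_EXL : P_EXL := by
  intro n N L hN hL t X hX
  have ha : (t • N) ^ n = 0 := by rw [smul_pow, hN, smul_zero]
  rw [exl_ex N hN t]
  set a : Mat n := t • N with hadef
  have han : IsNilpotent a := ⟨n, ha⟩
  have hinv : (IsNilpotent.exp a)⁻¹ = IsNilpotent.exp (-a) :=
    Matrix.inv_eq_left_inv (IsNilpotent.exp_neg_mul_exp_self han)
  rw [hinv]
  have hna : (-a) ^ n = 0 := by rw [neg_pow, ha, mul_zero]
  have hl0 : (LinearMap.mulLeft ℝ (-a)) ^ n = 0 := by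
    rw [LinearMap.pow_mulLeft, hna]
    ext Y : 1
    simp
  have hr0 : (LinearMap.mulRight ℝ a) ^ n = 0 := by
    rw [LinearMap.pow_mulRight, ha]
    ext Y : 1
    simp
  have hcomm : Commute (LinearMap.mulLeft ℝ (-a)) (LinearMap.mulRight ℝ a) :=
    LinearMap.commute_mulLeft_right _ _
  have he := IsNilpotent.exp_add_of_commute hcomm ⟨n, hl0⟩ ⟨n, hr0⟩
  have hleft : ∀ Y : Mat n, IsNilpotent.exp (LinearMap.mulLeft ℝ (-a)) Y =
      IsNilpotent.exp (-a) * Y := by
    intro Y
    rw [IsNilpotent.exp_eq_sum hl0, IsNilpotent.exp_eq_sum hna, LinearMap.sum_apply,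
      Finset.sum_mul]
    refine Finset.sum_congr rfl fun i _ => ?_
    rw [LinearMap.smul_apply, LinearMap.pow_mulLeft, LinearMap.mulLeft_apply, smul_mul_assoc]
  have hright : ∀ Y : Mat n, IsNilpotent.exp (LinearMap.mulRight ℝ a) Y =
      Y * IsNilpotent.exp a := by
    intro Y
    rw [IsNilpotent.exp_eq_sum hr0, IsNilpotent.exp_eq_sum ha, LinearMap.sum_apply,
      Finset.mul_sum]
    refine Finset.sum_congr rfl fun i _ => ?_
    rw [LinearMap.smul_apply, LinearMap.pow_mulRight, LinearMap.mulRight_apply, mul_smul_comm]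
  have hgoal : IsNilpotent.exp (-a) * X * IsNilpotent.exp a =
      IsNilpotent.exp (LinearMap.mulLeft ℝ (-a) + LinearMap.mulRight ℝ a) X := by
    rw [he, Module.End.mul_apply, hright, hleft, mul_assoc]
  rw [hgoal]
  obtain ⟨k, hk⟩ := hcomm.isNilpotent_add ⟨n, hl0⟩ ⟨n, hr0⟩
  rw [IsNilpotent.exp_eq_sum hk, LinearMap.sum_apply]
  refine Submodule.sum_mem _ fun i _ => ?_
  rw [LinearMap.smul_apply]
  refine Submodule.smul_of_tower_mem L _ ?_
  have hstep : ∀ Y ∈ L, (LinearMap.mulLeft ℝ (-a) + LinearMap.mulRight ℝ a) Y ∈ L := by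
    intro Y hY
    have e : (LinearMap.mulLeft ℝ (-a) + LinearMap.mulRight ℝ a) Y = (-t) • (N * Y - Y * N) := by
      rw [LinearMap.add_apply, LinearMap.mulLeft_apply, LinearMap.mulRight_apply, hadef,
        smul_sub, neg_mul, smul_mul_assoc, mul_smul_comm, neg_smul, neg_smul]
      abel
    rw [e]
    exact L.smul_mem _ (hL Y hY)
  have hpow : ∀ i : ℕ, ((LinearMap.mulLeft ℝ (-a) + LinearMap.mulRight ℝ a) ^ i) X ∈ L := by
    intro i
    induction i with
    | zero => simpa using hX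
    | succ i ih =>
      rw [pow_succ', Module.End.mul_apply]
      exact hstep _ ih
  exact hpow i

end R877.RN
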